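import Mathlib

set_option autoImplicit false

namespace Pool.Agent.Lib.MP_3fc405_al

open Submodule

variable {D : Type*} [DivisionRing D] {V : Type*} [AddCommGroup V] [Module D V]

/-- A functional vanishing on `P` and not at two given vectors outside `P`. -/
lemma exists_functional (P : Submodule D V) (v u : V) (hv : v ∉ P) (hu : u ∉ P) :
    ∃ ξ : V →ₗ[D] D, (∀ x ∈ P, ξ x = 0) ∧ ξ v ≠ 0 ∧ ξ u ≠ 0 := by
  obtain ⟨ξ₁, h1, h1'⟩ := Submodule.exists_le_ker_of_notMem hv
  obtain ⟨ξ₂, h2, h2'⟩ := Submodule.exists_le_ker_of_notMem hu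
  by_cases hc : ξ₁ u = 0
  · by_cases hd : ξ₂ v = 0
    · refine ⟨ξ₁ + ξ₂, fun x hx => ?_, ?_, ?_⟩
      · have e1 : ξ₁ x = 0 := h1' hx
        have e2 : ξ₂ x = 0 := h2' hx
        simp [e1, e2]
      · simpa [hd] using h1
      · simpa [hc] using h2
    · exact ⟨ξ₂, fun x hx => h2' hx, hd, h2⟩
  · exact ⟨ξ₁, fun x hx => h1' hx, h1, hc⟩

/-- One-vector extension: an automorphism can be changed outside `P` so that it sends `v` to `w`. -/
lemma one_step (f : V ≃ₗ[D] V) (P : Submodule D V) (v w : V) (hv : v ∉ P)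
    (hw : f.symm w ∉ P) :
    ∃ f' : V ≃ₗ[D] V, (∀ x ∈ P, f' x = f x) ∧ f' v = w := by
  set u := f.symm w with hu
  obtain ⟨ξ, hP, hξv, hξu⟩ := exists_functional P v u hv hw
  let ψ : V →ₗ[D] V :=
    { toFun := fun x => x + (ξ x * (ξ v)⁻¹) • (u - v)
      map_add' := by
        intro x y
        simp only [map_add, add_mul, add_smul]
        abel
      map_smul' := by
        intro c x
        simp only [map_smul, smul_eq_mul, smul_add, RingHom.id_apply, mul_assoc, smul_smul] }
  have hψ : ∀ x, ψ x = x + (ξ x * (ξ v)⁻¹) • (u - v) := fun x => rfl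
  have hξψ : ∀ x, ξ (ψ x) = ξ x * (ξ v)⁻¹ * ξ u := by
    intro x
    rw [hψ, map_add, map_smul, map_sub, smul_eq_mul, mul_sub, mul_assoc (ξ x) _ (ξ v),
      inv_mul_cancel₀ hξv, mul_one]
    abel
  have hinj : Function.Injective ψ := by
    rw [← LinearMap.ker_eq_bot, LinearMap.ker_eq_bot']
    intro x hx
    have h1 := hξψ x
    rw [hx, map_zero] at h1
    have h2 : ξ x = 0 := by
      rcases mul_eq_zero.mp h1.symm with h | h
      · rcases mul_eq_zero.mp h with h | h
        · exact h
        · exact absurd (inv_eq_zero.mp h) hξv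
      · exact absurd h hξu
    rw [hψ, h2, zero_mul, zero_smul, add_zero] at hx
    exact hx
  have hsurj : Function.Surjective ψ := by
    intro y
    refine ⟨y - (ξ y * (ξ u)⁻¹) • (u - v), ?_⟩
    have h1 : ξ (y - (ξ y * (ξ u)⁻¹) • (u - v)) * (ξ v)⁻¹ = ξ y * (ξ u)⁻¹ := by
      rw [map_sub, map_smul, map_sub, smul_eq_mul, mul_sub, mul_assoc (ξ y) _ (ξ u),
        inv_mul_cancel₀ hξu, mul_one, sub_sub_cancel, mul_assoc, mul_inv_cancel₀ hξv, mul_one]
    rw [hψ, h1]
    abel
  refine ⟨(LinearEquiv.ofBijective ψ ⟨hinj, hsurj⟩).trans f, ?_, ?_⟩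
  · intro x hx
    change f (ψ x) = f x
    rw [hψ, hP x hx, zero_mul, zero_smul, add_zero]
  · change f (ψ v) = w
    rw [hψ, mul_inv_cancel₀ hξv, one_smul, add_sub_cancel, hu, LinearEquiv.apply_symm_apply]

/-- `f` preserves `W` in both directions. -/
def Inv (f : V ≃ₗ[D] V) (W : Submodule D V) : Prop := ∀ x, f x ∈ W ↔ x ∈ W

lemma Inv.symm {f : V ≃ₗ[D] V} {W : Submodule D V} (h : Inv f W) : Inv f.symm W := by
  intro x
  rw [← h (f.symm x), LinearEquiv.apply_symm_apply]

lemma Inv.trans {f g : V ≃ₗ[D] V} {W : Submodule D V} (hf : Inv f W) (hg : Inv g W) :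
    Inv (f.trans g) W := by
  intro x
  rw [LinearEquiv.trans_apply, hg, hf]

lemma Inv.congr {f f' : V ≃ₗ[D] V} {W : Submodule D V} (h : Inv f W)
    (h' : ∀ x ∈ W, f' x = f x) : Inv f' W := by
  intro x
  constructor
  · intro hx
    have h1 : f.symm (f' x) ∈ W := (h.symm _).mpr hx
    have h2 := h' _ h1
    rw [LinearEquiv.apply_symm_apply] at h2
    rw [← f'.injective h2]
    exact h1
  · intro hx
    rw [h' x hx]
    exact (h x).mpr hx

lemma mem_sup_span_singleton {P : Submodule D V} {v x : V} (h : x ∈ P ⊔ span D {v}) :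
    ∃ y ∈ P, ∃ c : D, x = y + c • v := by
  obtain ⟨y, hy, z, hz, rfl⟩ := Submodule.mem_sup.mp h
  obtain ⟨c, rfl⟩ := Submodule.mem_span_singleton.mp hz
  exact ⟨y, hy, c, rfl⟩

/-- Relative finite-dimensional injectivity implies surjectivity. -/
lemma inv_of_le (W E : Submodule D V) (s : Finset V) (hE : E = W ⊔ span D (s : Set V))
    (a : V ≃ₗ[D] V) (haW : Inv a W) (haE : ∀ x ∈ E, a x ∈ E) : Inv a E := by
  have hWE : W ≤ E := hE ▸ le_sup_left
  let abar : (V ⧸ W) →ₗ[D] (V ⧸ W) := W.mapQ W (a : V →ₗ[D] V) (fun x hx => (haW x).mpr hx)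
  have habar : ∀ x, abar (W.mkQ x) = W.mkQ (a x) := fun x => rfl
  have hinj : Function.Injective abar := by
    rw [← LinearMap.ker_eq_bot, LinearMap.ker_eq_bot']
    intro x hx
    obtain ⟨y, rfl⟩ := W.mkQ_surjective x
    rw [habar] at hx
    have h1 : a y ∈ W := by
      rwa [← LinearMap.mem_ker, Submodule.ker_mkQ] at hx
    have h2 : y ∈ W := (haW y).mp h1
    rwa [← LinearMap.mem_ker, Submodule.ker_mkQ]
  let Eb : Submodule D (V ⧸ W) := E.map W.mkQ
  have hEb : Eb = span D ((W.mkQ '' (s : Set V))) := by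
    change E.map W.mkQ = _
    rw [hE, Submodule.map_sup, Submodule.map_span]
    have : W.map W.mkQ = ⊥ := by
      rw [eq_bot_iff]
      rintro _ ⟨x, hx, rfl⟩
      rw [Submodule.mem_bot, ← LinearMap.mem_ker, Submodule.ker_mkQ]
      exact hx
    rw [this, bot_sup_eq]
  have hfin : FiniteDimensional D Eb := by
    rw [hEb]
    exact FiniteDimensional.span_of_finite D (s.finite_toSet.image _)
  have hmaps : ∀ x ∈ Eb, abar x ∈ Eb := by
    rintro _ ⟨y, hy, rfl⟩
    rw [habar]
    exact Submodule.mem_map_of_mem (haE y hy)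
  let r : Eb →ₗ[D] Eb := abar.restrict hmaps
  have hrinj : Function.Injective r := by
    intro x y hxy
    apply Subtype.ext
    apply hinj
    have := congrArg Subtype.val hxy
    simpa [r] using this
  have hrsurj : Function.Surjective r := LinearMap.injective_iff_surjective.mp hrinj
  intro x
  refine ⟨fun hx => ?_, haE x⟩
  obtain ⟨⟨y, hy⟩, hy'⟩ := hrsurj ⟨W.mkQ (a x), Submodule.mem_map_of_mem hx⟩
  have h1 : abar y = abar (W.mkQ x) := by
    rw [habar]
    have := congrArg Subtype.val hy'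
    simpa [r] using this
  have h2 : y = W.mkQ x := hinj h1
  rw [h2] at hy
  obtain ⟨z, hz, hz'⟩ := hy
  have h3 : x - z ∈ W := by
    rw [← Submodule.ker_mkQ W, LinearMap.mem_ker, map_sub, hz', sub_self]
  have : x = (x - z) + z := by abel
  rw [this]
  exact E.add_mem (hWE h3) hz

/-- Extending a partly defined automorphism to an automorphism of a larger finite piece. -/
lemma closeup (W E : Submodule D V) (s : Finset V) (hE : E = W ⊔ span D (s : Set V))
    (t : Finset V) : ∀ (P : Submodule D V) (a : V ≃ₗ[D] V), W ≤ P → Inv a W → P ≤ E →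
      (∀ x ∈ P, a x ∈ E) → (∀ x ∈ t, x ∈ E) → E ≤ P ⊔ span D (t : Set V) →
      ∃ a₁ : V ≃ₗ[D] V, (∀ x ∈ P, a₁ x = a x) ∧ ∀ x ∈ E, a₁ x ∈ E := by
  classical
  induction t using Finset.induction_on with
  | empty =>
    intro P a _ _ _ haP _ ht
    refine ⟨a, fun _ _ => rfl, fun x hx => haP x ?_⟩
    have := ht hx
    simpa using this
  | insert v t hvt ih =>
    intro P a hWP haW hPE haP htE ht
    rw [Finset.coe_insert, Submodule.span_insert, ← sup_assoc] at ht
    have htE' : ∀ x ∈ t, x ∈ E := fun x hx => htE x (Finset.mem_insert_of_mem hx)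
    have hvE : v ∈ E := htE v (Finset.mem_insert_self _ _)
    by_cases hv : v ∈ P
    · apply ih P a hWP haW hPE haP htE'
      have : P ⊔ span D {v} = P := by
        rw [sup_eq_left, Submodule.span_singleton_le_iff_mem]
        exact hv
      rwa [this] at ht
    · -- find a target
      obtain ⟨w, hwE, hw⟩ : ∃ w ∈ E, a.symm w ∉ P := by
        by_contra hcon
        push Not at hcon
        have h1 : Inv a.symm E := inv_of_le W E s hE a.symm haW.symm
          (fun x hx => hPE (hcon x hx))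
        apply hv
        have h2 : a v ∈ E := by
          have := (h1 (a v))
          rw [LinearEquiv.symm_apply_apply] at this
          exact this.mp hvE
        have h3 := hcon (a v) h2
        rwa [LinearEquiv.symm_apply_apply] at h3
      obtain ⟨a', ha', ha'v⟩ := one_step a P v w hv hw
      obtain ⟨a₁, h1, h2⟩ := ih (P ⊔ span D {v}) a' (hWP.trans le_sup_left)
        (haW.congr (fun x hx => ha' x (hWP hx)))
        (sup_le hPE (by rwa [Submodule.span_singleton_le_iff_mem]))
        (by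
          intro x hx
          obtain ⟨y, hy, c, rfl⟩ := mem_sup_span_singleton hx
          rw [map_add, map_smul, ha' y hy, ha'v]
          exact E.add_mem (haP y hy) (E.smul_mem c hwE)) htE' ht
      exact ⟨a₁, fun x hx => by rw [h1 x (le_sup_left (a := P) hx), ha' x hx], h2⟩

/-- Generic extension of `b`. -/
lemma generic (W X : Submodule D V) (hinf : ∀ s : Finset V, ¬ X ≤ W ⊔ span D (s : Set V))
    (t : Finset V) : ∀ (E M : Submodule D V) (b : V ≃ₗ[D] V) (r : Finset V),
      M = W ⊔ span D (r : Set V) → M ≤ X → (∀ x ∈ E, b x ∈ M) →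
      ∃ b₁ : V ≃ₗ[D] V, (∀ x ∈ E, b₁ x = b x) ∧
        (∀ x ∈ E ⊔ span D (t : Set V), b₁ x ∈ X) ∧
        (∀ x ∈ E ⊔ span D (t : Set V), b₁ x ∈ M → x ∈ E) := by
  classical
  induction t using Finset.induction_on with
  | empty =>
    intro E M b r hM hMX hb
    refine ⟨b, fun _ _ => rfl, ?_, ?_⟩
    · intro x hx
      exact hMX (hb x (by simpa using hx))
    · intro x hx _
      simpa using hx
  | insert v t hvt ih =>
    intro E M b r hM hMX hb
    rw [Finset.coe_insert, Submodule.span_insert, ← sup_assoc]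
    by_cases hv : v ∈ E
    · have : E ⊔ span D {v} = E := by
        rw [sup_eq_left, Submodule.span_singleton_le_iff_mem]
        exact hv
      rw [this]
      exact ih E M b r hM hMX hb
    · obtain ⟨w, hwX, hwM⟩ : ∃ w ∈ X, w ∉ M := by
        by_contra hcon
        push Not at hcon
        exact hinf r (hM ▸ hcon)
      have hw : b.symm w ∉ E := by
        intro h
        apply hwM
        have := hb _ h
        rwa [LinearEquiv.apply_symm_apply] at this
      obtain ⟨b', hb', hb'v⟩ := one_step b E v w hv hw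
      obtain ⟨b₁, h1, h2, h3⟩ := ih (E ⊔ span D {v}) (M ⊔ span D {w}) b' (insert w r)
        (by
          rw [Finset.coe_insert, Submodule.span_insert, hM, sup_assoc, sup_comm (span D {w})])
        (sup_le hMX (by rwa [Submodule.span_singleton_le_iff_mem]))
        (by
          intro x hx
          obtain ⟨y, hy, c, rfl⟩ := mem_sup_span_singleton hx
          rw [map_add, map_smul, hb' y hy, hb'v]
          exact Submodule.add_mem_sup (hb y hy)
            (Submodule.smul_mem _ c (Submodule.mem_span_singleton_self w)))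
      refine ⟨b₁, fun x hx => by rw [h1 x (le_sup_left (a := E) hx), hb' x hx], h2, ?_⟩
      intro x hx hxM
      have hx1 := h3 x hx (le_sup_left (a := M) hxM)
      obtain ⟨y, hy, c, rfl⟩ := mem_sup_span_singleton hx1
      rw [h1 _ hx1, map_add, map_smul, hb' y hy, hb'v] at hxM
      have hc : c = 0 := by
        by_contra hc
        apply hwM
        have h4 : c • w ∈ M := by
          have := M.sub_mem hxM (hb y hy)
          rwa [add_sub_cancel_left] at this
        have h5 := M.smul_mem c⁻¹ h4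
        rwa [smul_smul, inv_mul_cancel₀ hc, one_smul] at h5
      rw [hc, zero_smul, add_zero]
      exact hy

/-- Transport of the relation to the generic part. -/
lemma transport (E' : Submodule D V) (b g a₁ : V ≃ₗ[D] V) (ha₁ : ∀ x ∈ E', a₁ x ∈ E')
    (t : Finset V) : ∀ (F : Submodule D V) (a : V ≃ₗ[D] V),
      F ≤ E' → (∀ x ∈ t, x ∈ E') → (∀ x ∈ E', a x = a₁ x) →
      (∀ x ∈ F, a (b x) = g (b (a₁ x))) →
      (∀ x ∈ E', b x ∈ E' → x ∈ F) → (∀ x ∈ E', g (b (a₁ x)) ∈ E' → x ∈ F) →
      ∃ a₂ : V ≃ₗ[D] V, (∀ x ∈ E', a₂ x = a₁ x) ∧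
        ∀ x ∈ F ⊔ span D (t : Set V), a₂ (b x) = g (b (a₁ x)) := by
  classical
  induction t using Finset.induction_on with
  | empty =>
    intro F a hF _ ha hab _ _
    refine ⟨a, ha, fun x hx => hab x (by simpa using hx)⟩
  | insert v t hvt ih =>
    intro F a hF ht ha hab hH1 hH2
    have ht' : ∀ x ∈ t, x ∈ E' := fun x hx => ht x (Finset.mem_insert_of_mem hx)
    have hvE : v ∈ E' := ht v (Finset.mem_insert_self _ _)
    rw [Finset.coe_insert, Submodule.span_insert, ← sup_assoc]
    by_cases hv : v ∈ F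
    · have : F ⊔ span D {v} = F := by
        rw [sup_eq_left, Submodule.span_singleton_le_iff_mem]
        exact hv
      rw [this]
      exact ih F a hF ht' ha hab hH1 hH2
    · set P : Submodule D V := E' ⊔ F.map (b : V →ₗ[D] V) with hP
      have hbv : b v ∉ P := by
        intro h
        obtain ⟨y, hy, z, ⟨x, hx, rfl⟩, hyz⟩ := Submodule.mem_sup.mp h
        have h1 : b (v - x) = y := by
          rw [map_sub, ← hyz]
          simp
        have h2 : v - x ∈ F := hH1 _ (E'.sub_mem hvE (hF hx)) (h1 ▸ hy)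
        apply hv
        have := F.add_mem h2 hx
        rwa [sub_add_cancel] at this
      have hw : a.symm (g (b (a₁ v))) ∉ P := by
        intro h
        obtain ⟨y, hy, z, ⟨x, hx, rfl⟩, hyz⟩ := Submodule.mem_sup.mp h
        have h1 : g (b (a₁ v)) = a₁ y + g (b (a₁ x)) := by
          have := congrArg a hyz
          rw [LinearEquiv.apply_symm_apply, map_add, ha y hy] at this
          rw [← this]
          congr 1
          exact hab x hx
        have h2 : g (b (a₁ (v - x))) = a₁ y := by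
          rw [map_sub, map_sub, map_sub, h1, add_sub_cancel_right]
        have h3 : v - x ∈ F := hH2 _ (E'.sub_mem hvE (hF hx)) (h2 ▸ ha₁ y hy)
        apply hv
        have := F.add_mem h3 hx
        rwa [sub_add_cancel] at this
      obtain ⟨a', ha', ha'v⟩ := one_step a P (b v) (g (b (a₁ v))) hbv hw
      have hF' : F ⊔ span D {v} ≤ E' :=
        sup_le hF (by rwa [Submodule.span_singleton_le_iff_mem])
      apply ih (F ⊔ span D {v}) a' hF' ht'
      · intro x hx
        rw [ha' x (le_sup_left (a := E') hx), ha x hx]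
      · intro x hx
        obtain ⟨y, hy, c, rfl⟩ := mem_sup_span_singleton hx
        have h1 : b y ∈ P := le_sup_right (a := E') (Submodule.mem_map_of_mem hy)
        simp only [map_add, map_smul]
        rw [ha' _ h1, hab y hy, ha'v]
      · intro x hx hx'
        exact le_sup_left (a := F) (hH1 x hx hx')
      · intro x hx hx'
        exact le_sup_left (a := F) (hH2 x hx hx')

/-- The inductive state. -/
structure Good (g : V ≃ₗ[D] V) (W X E : Submodule D V) (a b : V ≃ₗ[D] V) : Prop where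
  fin : ∃ s : Finset V, E = W ⊔ span D (s : Set V)
  EX : E ≤ X
  bEX : ∀ x ∈ E, b x ∈ X
  aW : Inv a W
  bW : Inv b W
  aE : Inv a E
  rel : ∀ x ∈ E, a (b x) = g (b (a x))

lemma Good.WE {g : V ≃ₗ[D] V} {W X E : Submodule D V} {a b : V ≃ₗ[D] V}
    (h : Good g W X E a b) : W ≤ E := by
  obtain ⟨s, hs⟩ := h.fin
  rw [hs]
  exact le_sup_left

/-- Forward step. -/
lemma forward (g : V ≃ₗ[D] V) (W X : Submodule D V) (hWX : W ≤ X)
    (hgW : Inv g W) (hgX : Inv g X)
    (hinf : ∀ s : Finset V, ¬ X ≤ W ⊔ span D (s : Set V))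
    (E : Submodule D V) (a b : V ≃ₗ[D] V) (h : Good g W X E a b) (e : V) (he : e ∈ X) :
    ∃ (E' : Submodule D V) (a' b' : V ≃ₗ[D] V), Good g W X E' a' b' ∧ E ≤ E' ∧ e ∈ E' ∧
      (∀ x ∈ E, b x ∈ E') ∧ (∀ x ∈ E, a' x = a x) ∧ (∀ x ∈ E, a' (b x) = a (b x)) ∧
      (∀ x ∈ E, b' x = b x) := by
  classical
  obtain ⟨s, hs⟩ := h.fin
  have hsE : ∀ x ∈ s, x ∈ E := fun x hx => by
    rw [hs]; exact le_sup_right (a := W) (Submodule.subset_span hx)
  set s' : Finset V := insert e (s ∪ s.image b ∪ s.image (fun x => a (b x))) with hs'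
  set E' : Submodule D V := W ⊔ span D (s' : Set V) with hE'
  have hWE' : W ≤ E' := le_sup_left
  have hs'E' : ∀ x ∈ s', x ∈ E' := fun x hx => le_sup_right (a := W) (Submodule.subset_span hx)
  have hEE' : E ≤ E' := by
    rw [hs]
    apply sup_le hWE'
    rw [Submodule.span_le]
    intro x hx
    apply hs'E'
    simp only [hs', Finset.mem_insert, Finset.mem_union]
    exact Or.inr (Or.inl (Or.inl hx))
  have hbE : ∀ x ∈ E, b x ∈ E' := by
    have : E ≤ E'.comap (b : V →ₗ[D] V) := by
      rw [hs]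
      apply sup_le
      · intro x hx
        exact hWE' ((h.bW x).mpr hx)
      · rw [Submodule.span_le]
        intro x hx
        apply hs'E'
        simp only [hs', Finset.mem_insert, Finset.mem_union]
        exact Or.inr (Or.inl (Or.inr (Finset.mem_image_of_mem _ hx)))
    exact fun x hx => this hx
  have habE : ∀ x ∈ E, a (b x) ∈ E' := by
    have : E ≤ E'.comap ((a : V →ₗ[D] V).comp (b : V →ₗ[D] V)) := by
      rw [hs]
      apply sup_le
      · intro x hx
        exact hWE' ((h.aW _).mpr ((h.bW x).mpr hx))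
      · rw [Submodule.span_le]
        intro x hx
        apply hs'E'
        simp only [hs', Finset.mem_insert, Finset.mem_union]
        exact Or.inr (Or.inr (Finset.mem_image_of_mem (fun x => a (b x)) hx))
    exact fun x hx => this hx
  have haE : ∀ x ∈ E, a x ∈ E := fun x hx => (h.aE x).mpr hx
  have habX : ∀ x ∈ E, a (b x) ∈ X := by
    intro x hx
    rw [h.rel x hx]
    exact (hgX _).mpr (h.bEX _ (haE x hx))
  have hE'X : E' ≤ X := by
    apply sup_le hWX
    rw [Submodule.span_le]
    intro x hx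
    simp only [hs', Finset.coe_insert, Finset.coe_union, Finset.coe_image, Set.mem_insert_iff,
      Set.mem_union, Set.mem_image] at hx
    rcases hx with rfl | (hx | ⟨y, hy, rfl⟩) | ⟨y, hy, rfl⟩
    · exact he
    · exact h.EX (hsE x hx)
    · exact h.bEX y (hsE y hy)
    · exact habX y (hsE y hy)
  -- step 1
  set P : Submodule D V := E ⊔ E.map (b : V →ₗ[D] V) with hP
  have hPE' : P ≤ E' := by
    apply sup_le hEE'
    rintro _ ⟨x, hx, rfl⟩
    exact hbE x hx
  have haP : ∀ x ∈ P, a x ∈ E' := by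
    intro x hx
    obtain ⟨y, hy, z, ⟨u, hu, rfl⟩, rfl⟩ := Submodule.mem_sup.mp hx
    rw [map_add]
    exact E'.add_mem (hEE' (haE y hy)) (habE u hu)
  have hbP : ∀ x ∈ E, b x ∈ P := fun x hx =>
    le_sup_right (a := E) (Submodule.mem_map_of_mem hx)
  obtain ⟨a₁, ha₁P, ha₁E'⟩ := closeup W E' s' rfl s' P a (h.WE.trans le_sup_left) h.aW hPE' haP
    hs'E' (by
      rw [hE']
      exact sup_le_sup_right (h.WE.trans le_sup_left) _)
  have ha₁E : ∀ x ∈ E, a₁ x = a x := fun x hx => ha₁P x (le_sup_left (a := E) hx)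
  have ha₁W : Inv a₁ W := h.aW.congr (fun x hx => ha₁E x (h.WE hx))
  have ha₁inv : Inv a₁ E' := inv_of_le W E' s' rfl a₁ ha₁W ha₁E'
  have ha₁invE : Inv a₁ E := h.aE.congr ha₁E
  -- step 2
  set M : Submodule D V := E' ⊔ E'.map (g.symm : V →ₗ[D] V) with hM
  have hMfin : M = W ⊔ span D ((s' ∪ s'.image g.symm : Finset V) : Set V) := by
    have hWg : W.map (g.symm : V →ₗ[D] V) = W := by
      ext x
      constructor
      · rintro ⟨y, hy, rfl⟩
        exact (hgW.symm y).mpr hy
      · intro hx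
        exact ⟨g x, (hgW x).mpr hx, by simp⟩
    rw [hM, hE', Submodule.map_sup, hWg, Submodule.map_span, Finset.coe_union, Finset.coe_image,
      Submodule.span_union]
    apply le_antisymm
    · apply sup_le
      · exact sup_le le_sup_left (le_sup_left.trans le_sup_right)
      · exact sup_le le_sup_left (le_sup_right.trans le_sup_right)
    · apply sup_le
      · exact le_sup_left.trans le_sup_left
      · exact sup_le (le_sup_right.trans le_sup_left) (le_sup_right.trans le_sup_right)
  have hMX : M ≤ X := by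
    apply sup_le hE'X
    rintro _ ⟨x, hx, rfl⟩
    exact (hgX.symm x).mpr (hE'X hx)
  obtain ⟨b₁, hb₁E, hb₁X, hb₁M⟩ := generic W X hinf s' E M b _ hMfin hMX
    (fun x hx => le_sup_left (a := E') (hbE x hx))
  have hEs' : E ⊔ span D (s' : Set V) = E' := by
    apply le_antisymm
    · exact sup_le hEE' (by rw [Submodule.span_le]; exact hs'E')
    · rw [hE']
      exact sup_le_sup_right h.WE _
  rw [hEs'] at hb₁X hb₁M
  -- step 3
  obtain ⟨a₂, ha₂, ha₂rel⟩ := transport E' b₁ g a₁ ha₁E' s' E a₁ hEE' hs'E' (fun _ _ => rfl)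
    (by
      intro x hx
      rw [hb₁E x hx, ha₁P _ (hbP x hx), h.rel x hx, ha₁E x hx, hb₁E _ (haE x hx)])
    (by
      intro x hx hx'
      exact hb₁M x hx (le_sup_left (a := E') hx'))
    (by
      intro x hx hx'
      have h1 : b₁ (a₁ x) ∈ M := by
        apply le_sup_right (a := E')
        exact ⟨g (b₁ (a₁ x)), hx', by simp⟩
      have h2 := hb₁M _ (ha₁E' x hx) h1
      exact (ha₁invE x).mp h2)
  rw [hEs'] at ha₂rel
  refine ⟨E', a₂, b₁, ⟨⟨s', rfl⟩, hE'X, hb₁X, ?_, ?_, ?_, ?_⟩, hEE', ?_, hbE, ?_, ?_, hb₁E⟩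
  · exact ha₁W.congr (fun x hx => ha₂ x (hWE' hx))
  · exact h.bW.congr (fun x hx => hb₁E x (h.WE hx))
  · exact ha₁inv.congr ha₂
  · intro x hx
    rw [ha₂rel x hx, ha₂ x hx]
  · exact hs'E' e (Finset.mem_insert_self _ _)
  · intro x hx
    rw [ha₂ x (hEE' hx), ha₁E x hx]
  · intro x hx
    rw [ha₂ _ (hbE x hx), ha₁P _ (hbP x hx)]

/-- The symmetry `(a, b, g) ↦ (g⁻¹ a, b⁻¹, g⁻¹)` of the states. -/
lemma Good.tilde {g : V ≃ₗ[D] V} {W X E : Submodule D V} {a b : V ≃ₗ[D] V}
    (hgW : Inv g W) (h : Good g W X E a b) :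
    Good g.symm W X (E.map (b : V →ₗ[D] V)) (a.trans g.symm) b.symm := by
  classical
  have haE : ∀ x ∈ E, a x ∈ E := fun x hx => (h.aE x).mpr hx
  refine ⟨?_, ?_, ?_, h.aW.trans hgW.symm, h.bW.symm, ?_, ?_⟩
  · obtain ⟨s, hs⟩ := h.fin
    refine ⟨s.image b, ?_⟩
    have hWb : W.map (b : V →ₗ[D] V) = W := by
      ext x
      constructor
      · rintro ⟨y, hy, rfl⟩
        exact (h.bW y).mpr hy
      · intro hx
        exact ⟨b.symm x, (h.bW.symm x).mpr hx, by simp⟩
    rw [hs, Submodule.map_sup, hWb, Submodule.map_span, Finset.coe_image]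
    rfl
  · rintro _ ⟨x, hx, rfl⟩
    exact h.bEX x hx
  · rintro _ ⟨x, hx, rfl⟩
    have : b.symm ((b : V →ₗ[D] V) x) = x := by simp
    rw [this]
    exact h.EX hx
  · intro x
    constructor
    · rintro ⟨y, hy, hyx⟩
      have h1 : g (b y) = a x := by
        have := congrArg g hyx
        simpa using this
      have h2 : a.symm y ∈ E := (h.aE.symm y).mpr hy
      have h3 := h.rel _ h2
      rw [LinearEquiv.apply_symm_apply, h1] at h3
      refine ⟨a.symm y, h2, ?_⟩
      exact a.injective h3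
    · rintro ⟨y, hy, rfl⟩
      refine ⟨a y, haE y hy, ?_⟩
      simp [h.rel y hy]
  · rintro _ ⟨x, hx, rfl⟩
    simp [h.rel x hx]

/-- Backward step. -/
lemma backward (g : V ≃ₗ[D] V) (W X : Submodule D V) (hWX : W ≤ X)
    (hgW : Inv g W) (hgX : Inv g X)
    (hinf : ∀ s : Finset V, ¬ X ≤ W ⊔ span D (s : Set V))
    (E : Submodule D V) (a b : V ≃ₗ[D] V) (h : Good g W X E a b) (e : V) (he : e ∈ X) :
    ∃ (E' : Submodule D V) (a' b' : V ≃ₗ[D] V), Good g W X E' a' b' ∧ E ≤ E' ∧
      (∃ y ∈ E', b' y = e) ∧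
      (∀ x ∈ E, a' x = a x) ∧ (∀ x ∈ E, b' x = b x) := by
  obtain ⟨F, a', b', hgood, hle, heF, -, h1, h2, h3⟩ :=
    forward g.symm W X hWX hgW.symm hgX.symm hinf _ _ _ (h.tilde hgW) e he
  have hg2 := hgood.tilde hgW.symm
  rw [LinearEquiv.symm_symm] at hg2
  refine ⟨_, _, _, hg2, ?_, ?_, ?_, ?_⟩
  · intro x hx
    refine ⟨b x, hle (Submodule.mem_map_of_mem hx), ?_⟩
    have := h3 (b x) (Submodule.mem_map_of_mem hx)
    simpa using this
  · refine ⟨b' e, Submodule.mem_map_of_mem heF, ?_⟩
    simp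
  · intro x hx
    have := h2 (b x) (Submodule.mem_map_of_mem hx)
    simp only [LinearEquiv.symm_apply_apply, LinearEquiv.trans_apply] at this ⊢
    rw [this, LinearEquiv.apply_symm_apply]
  · intro x hx
    have := h3 (b x) (Submodule.mem_map_of_mem hx)
    rw [LinearEquiv.symm_apply_apply] at this
    rw [LinearEquiv.symm_apply_eq]
    exact this.symm

end Pool.Agent.Lib.MP_3fc405_al
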