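import Mathlib
import Pool.Agent.Lib.MP_3fc405_al.Core

set_option autoImplicit false

namespace Pool.Agent.Lib.MP_3fc405_al

open Submodule

variable {D : Type*} [DivisionRing D] {V : Type*} [AddCommGroup V] [Module D V]

/-- Gluing a directed family of compatible linear maps. -/
lemma glue {ι : Type*} (X : ι → Submodule D V) (f : ι → (V →ₗ[D] V))
    (hdir : ∀ i j, ∃ k, X i ≤ X k ∧ X j ≤ X k ∧ (∀ x ∈ X i, f k x = f i x) ∧
      (∀ x ∈ X j, f k x = f j x)) :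
    ∃ F : V →ₗ[D] V, ∀ i, ∀ x ∈ X i, F x = f i x := by
  let p : ι → (V →ₗ.[D] V) := fun i => ⟨X i, (f i).comp (X i).subtype⟩
  have hple : ∀ i k, X i ≤ X k → (∀ x ∈ X i, f k x = f i x) → p i ≤ p k := by
    intro i k h1 h2
    refine ⟨h1, ?_⟩
    intro x y hxy
    change f i x = f k y
    rw [← hxy, h2 _ x.2]
  have hd : DirectedOn (· ≤ ·) (Set.range p) := by
    rintro _ ⟨i, rfl⟩ _ ⟨j, rfl⟩
    obtain ⟨k, h1, h2, h3, h4⟩ := hdir i j
    exact ⟨p k, ⟨k, rfl⟩, hple i k h1 h3, hple j k h2 h4⟩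
  obtain ⟨F, hF⟩ := LinearMap.exists_extend (LinearPMap.sSup _ hd).toFun
  refine ⟨F, fun i x hx => ?_⟩
  have hle : p i ≤ LinearPMap.sSup _ hd := LinearPMap.le_sSup hd ⟨i, rfl⟩
  have hx' : x ∈ (LinearPMap.sSup _ hd).domain := hle.1 hx
  have h1 := LinearMap.congr_fun hF ⟨x, hx'⟩
  have h2 : p i ⟨x, hx⟩ = (LinearPMap.sSup _ hd) ⟨x, hx'⟩ := hle.2 rfl
  calc F x = (LinearPMap.sSup _ hd) ⟨x, hx'⟩ := h1
    _ = p i ⟨x, hx⟩ := h2.symm
    _ = f i x := rfl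

/-- A linear map restricting to a bijection of `X` agrees on `X` with an automorphism. -/
lemma ext0 (X : Submodule D V) (F : V →ₗ[D] V) (hmaps : ∀ x ∈ X, F x ∈ X)
    (hinj : ∀ x ∈ X, F x = 0 → x = 0) (hsurj : ∀ y ∈ X, ∃ x ∈ X, F x = y) :
    ∃ f : V ≃ₗ[D] V, Inv f X ∧ ∀ x ∈ X, f x = F x := by
  obtain ⟨Y, hY⟩ := Submodule.exists_isCompl X
  let r : X →ₗ[D] X := F.restrict hmaps
  have hr1 : Function.Injective r := by
    rw [← LinearMap.ker_eq_bot, LinearMap.ker_eq_bot']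
    intro x hx
    apply Subtype.ext
    apply hinj x x.2
    have := congrArg Subtype.val hx
    simpa [r] using this
  have hr2 : Function.Surjective r := by
    rintro ⟨y, hy⟩
    obtain ⟨x, hx, hxy⟩ := hsurj y hy
    exact ⟨⟨x, hx⟩, Subtype.ext hxy⟩
  let e : X ≃ₗ[D] X := LinearEquiv.ofBijective r ⟨hr1, hr2⟩
  let P := Submodule.prodEquivOfIsCompl X Y hY
  let f : V ≃ₗ[D] V := P.symm.trans ((e.prodCongr (LinearEquiv.refl D Y)).trans P)
  have hf : ∀ x ∈ X, f x = F x := by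
    intro x hx
    have h1 : P.symm x = (⟨x, hx⟩, 0) := by
      rw [LinearEquiv.symm_apply_eq]
      simp [P]
    change P ((e.prodCongr (LinearEquiv.refl D Y)) (P.symm x)) = F x
    rw [h1]
    simp [P, e, r]
  refine ⟨f, ?_, hf⟩
  intro x
  constructor
  · intro hx
    obtain ⟨y, hy, hyx⟩ := hsurj (f x) hx
    rw [← hf y hy] at hyx
    rw [← f.injective hyx]
    exact hy
  · intro hx
    rw [hf x hx]
    exact hmaps x hx

/-- Relative countable extension. -/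
theorem rel_ext (g : V ≃ₗ[D] V) (W X : Submodule D V) (hWX : W ≤ X)
    (hgW : Inv g W) (hgX : Inv g X)
    (hinf : ∀ s : Finset V, ¬ X ≤ W ⊔ span D (s : Set V))
    (e : ℕ → V) (he : ∀ n, e n ∈ X) (hX : X ≤ W ⊔ span D (Set.range e))
    (a₀ b₀ : V ≃ₗ[D] V) (ha₀ : Inv a₀ W) (hb₀ : Inv b₀ W)
    (hrel₀ : ∀ x ∈ W, a₀ (b₀ x) = g (b₀ (a₀ x))) :
    ∃ a b : V ≃ₗ[D] V, Inv a X ∧ Inv b X ∧ (∀ x ∈ W, a x = a₀ x) ∧ (∀ x ∈ W, b x = b₀ x) ∧
      ∀ x ∈ X, a (b x) = g (b (a x)) := by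
  classical
  -- the combined step
  have step : ∀ (t : Submodule D V × (V ≃ₗ[D] V) × (V ≃ₗ[D] V)) (n : ℕ),
      Good g W X t.1 t.2.1 t.2.2 →
      ∃ t' : Submodule D V × (V ≃ₗ[D] V) × (V ≃ₗ[D] V), Good g W X t'.1 t'.2.1 t'.2.2 ∧
        t.1 ≤ t'.1 ∧ e n ∈ t'.1 ∧ (∃ y ∈ t'.1, t'.2.2 y = e n) ∧
        (∀ x ∈ t.1, t'.2.1 x = t.2.1 x) ∧ (∀ x ∈ t.1, t'.2.2 x = t.2.2 x) := by
    rintro ⟨E, a, b⟩ n h
    obtain ⟨E₁, a₁, b₁, h1, h2, h3, -, h4, -, h5⟩ :=
      forward g W X hWX hgW hgX hinf E a b h (e n) (he n)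
    obtain ⟨E₂, a₂, b₂, k1, k2, k3, k4, k5⟩ :=
      backward g W X hWX hgW hgX hinf E₁ a₁ b₁ h1 (e n) (he n)
    refine ⟨⟨E₂, a₂, b₂⟩, k1, h2.trans k2, k2 h3, k3, ?_, ?_⟩
    · intro x hx
      change a₂ x = a x
      rw [k4 x (h2 hx), h4 x hx]
    · intro x hx
      change b₂ x = b x
      rw [k5 x (h2 hx), h5 x hx]
  choose! nx hnx1 hnx2 hnx3 hnx4 hnx5 hnx6 using step
  let sq : ℕ → Submodule D V × (V ≃ₗ[D] V) × (V ≃ₗ[D] V) :=
    fun n => Nat.rec ⟨W, a₀, b₀⟩ (fun n t => nx t n) n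
  have hsq0 : sq 0 = ⟨W, a₀, b₀⟩ := rfl
  have hsqs : ∀ n, sq (n + 1) = nx (sq n) n := fun n => rfl
  have hgood : ∀ n, Good g W X (sq n).1 (sq n).2.1 (sq n).2.2 := by
    intro n
    induction n with
    | zero =>
      exact ⟨⟨∅, by simp [hsq0]⟩, hWX, fun x hx => hWX ((hb₀ x).mpr hx), ha₀, hb₀, ha₀, hrel₀⟩
    | succ n ih =>
      rw [hsqs]
      exact hnx1 _ _ ih
  have hmono : ∀ m n, m ≤ n → (sq m).1 ≤ (sq n).1 ∧
      (∀ x ∈ (sq m).1, (sq n).2.1 x = (sq m).2.1 x) ∧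
      (∀ x ∈ (sq m).1, (sq n).2.2 x = (sq m).2.2 x) := by
    intro m n hmn
    induction n, hmn using Nat.le_induction with
    | base => exact ⟨le_rfl, fun _ _ => rfl, fun _ _ => rfl⟩
    | succ n hmn ih =>
      obtain ⟨i1, i2, i3⟩ := ih
      rw [hsqs]
      refine ⟨i1.trans (hnx2 _ _ (hgood n)), ?_, ?_⟩
      · intro x hx
        rw [hnx5 _ _ (hgood n) x (i1 hx), i2 x hx]
      · intro x hx
        rw [hnx6 _ _ (hgood n) x (i1 hx), i3 x hx]
  obtain ⟨A, hA⟩ := glue (fun n => (sq n).1) (fun n => ((sq n).2.1 : V →ₗ[D] V)) (by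
    intro i j
    refine ⟨max i j, (hmono i _ (le_max_left _ _)).1, (hmono j _ (le_max_right _ _)).1, ?_, ?_⟩
    · exact (hmono i _ (le_max_left _ _)).2.1
    · exact (hmono j _ (le_max_right _ _)).2.1)
  obtain ⟨B, hB⟩ := glue (fun n => (sq n).1) (fun n => ((sq n).2.2 : V →ₗ[D] V)) (by
    intro i j
    refine ⟨max i j, (hmono i _ (le_max_left _ _)).1, (hmono j _ (le_max_right _ _)).1, ?_, ?_⟩
    · exact (hmono i _ (le_max_left _ _)).2.2
    · exact (hmono j _ (le_max_right _ _)).2.2)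
  -- exhaustion
  have hex : ∀ x ∈ X, ∃ n, x ∈ (sq n).1 := by
    intro x hx
    have h1 : W ⊔ span D (Set.range e) ≤ ⨆ n, (sq n).1 := by
      apply sup_le
      · exact le_iSup (fun n => (sq n).1) 0
      · rw [Submodule.span_le]
        rintro _ ⟨n, rfl⟩
        have h2 : e n ∈ (sq (n + 1)).1 := by
          rw [hsqs]
          exact hnx3 _ _ (hgood n)
        exact Submodule.mem_iSup_of_mem (n + 1) h2
    have h2 := h1 (hX hx)
    rwa [Submodule.mem_iSup_of_directed _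
      (monotone_nat_of_le_succ (fun n => (hmono n (n + 1) (Nat.le_succ n)).1)).directed_le] at h2
  have hAX : ∀ n, ∀ x ∈ (sq n).1, A x ∈ (sq n).1 := by
    intro n x hx
    rw [hA n x hx]
    exact ((hgood n).aE x).mpr hx
  obtain ⟨a, ha1, ha2⟩ := ext0 X A
    (by
      intro x hx
      obtain ⟨n, hn⟩ := hex x hx
      exact (hgood n).EX (hAX n x hn))
    (by
      intro x hx hx0
      obtain ⟨n, hn⟩ := hex x hx
      rw [hA n x hn] at hx0
      exact (LinearEquiv.map_eq_zero_iff _).mp hx0)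
    (by
      intro y hy
      obtain ⟨n, hn⟩ := hex y hy
      have h1 : (sq n).2.1.symm y ∈ (sq n).1 := ((hgood n).aE.symm y).mpr hn
      refine ⟨(sq n).2.1.symm y, (hgood n).EX h1, ?_⟩
      rw [hA n _ h1]
      simp)
  obtain ⟨b, hb1, hb2⟩ := ext0 X B
    (by
      intro x hx
      obtain ⟨n, hn⟩ := hex x hx
      rw [hB n x hn]
      exact (hgood n).bEX x hn)
    (by
      intro x hx hx0
      obtain ⟨n, hn⟩ := hex x hx
      rw [hB n x hn] at hx0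
      exact (LinearEquiv.map_eq_zero_iff _).mp hx0)
    (by
      have h1 : W ⊔ span D (Set.range e) ≤ X.map B := by
        apply sup_le
        · intro y hy
          refine ⟨b₀.symm y, hWX ((hb₀.symm y).mpr hy), ?_⟩
          rw [hB 0 _ ((hb₀.symm y).mpr hy)]
          change b₀ (b₀.symm y) = y
          simp
        · rw [Submodule.span_le]
          rintro _ ⟨n, rfl⟩
          obtain ⟨y, hy, hy'⟩ := hnx4 _ n (hgood n)
          rw [← hsqs] at hy hy'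
          refine ⟨y, (hgood (n + 1)).EX hy, ?_⟩
          rw [hB (n + 1) y hy]
          exact hy'
      intro y hy
      obtain ⟨x, hx, hxy⟩ := h1 (hX hy)
      exact ⟨x, hx, hxy⟩)
  refine ⟨a, b, ha1, hb1, ?_, ?_, ?_⟩
  · intro x hx
    rw [ha2 x (hWX hx), hA 0 x hx]
    rfl
  · intro x hx
    rw [hb2 x (hWX hx), hB 0 x hx]
    rfl
  · intro x hx
    obtain ⟨n, hn⟩ := hex x hx
    have hbx : b x ∈ X := (hb1 x).mpr hx
    obtain ⟨m, hm⟩ := hex (b x) hbx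
    set k := max m n with hk
    have hxk : x ∈ (sq k).1 := (hmono n k (le_max_right _ _)).1 hn
    have hbk : b x ∈ (sq k).1 := (hmono m k (le_max_left _ _)).1 hm
    have h1 : b x = (sq k).2.2 x := by
      rw [hb2 x hx, hB k x hxk]
      rfl
    have h2 : a (b x) = (sq k).2.1 (b x) := by
      rw [ha2 _ hbx, hA k _ hbk]
      rfl
    have h3 : a x = (sq k).2.1 x := by
      rw [ha2 _ hx, hA k _ hxk]
      rfl
    have haxk : (sq k).2.1 x ∈ (sq k).1 := ((hgood k).aE x).mpr hxk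
    have h4 : b ((sq k).2.1 x) = (sq k).2.2 ((sq k).2.1 x) := by
      rw [hb2 _ ((hgood k).EX haxk), hB k _ haxk]
      rfl
    rw [h2, h3, h4, h1]
    exact (hgood k).rel x hxk

end Pool.Agent.Lib.MP_3fc405_al
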