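import Mathlib
import Pool.Agent.Lib.MP_3fc405_al.Rel

set_option autoImplicit false

namespace Pool.Agent.Lib.MP_3fc405_al

open Submodule

universe u w

variable {D : Type u} [DivisionRing D] {V : Type w} [AddCommGroup V] [Module D V]

/-- Every infinite-dimensional space has a basis indexed by a product with `ℕ`. -/
lemma exists_basis (h : ¬ Module.Finite D V) :
    ∃ (I : Type w), Nonempty (Module.Basis (I × ℕ) D V) := by
  let v := Module.Basis.ofVectorSpace D V
  have hinf : Infinite (Module.Basis.ofVectorSpaceIndex D V) := by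
    rw [← not_finite_iff_infinite]
    intro hfin
    apply h
    haveI := Fintype.ofFinite (Module.Basis.ofVectorSpaceIndex D V)
    exact Module.Finite.of_basis v
  refine ⟨Module.Basis.ofVectorSpaceIndex D V, ?_⟩
  have h1 : Cardinal.mk (Module.Basis.ofVectorSpaceIndex D V × ℕ) =
      Cardinal.mk (Module.Basis.ofVectorSpaceIndex D V) := by
    rw [Cardinal.mk_prod, Cardinal.mk_nat, Cardinal.lift_aleph0, Cardinal.lift_uzero,
      Cardinal.mul_aleph0_eq (Cardinal.aleph0_le_mk _)]
  obtain ⟨eqv⟩ := Cardinal.eq.mp h1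
  exact ⟨v.reindex eqv.symm⟩

/-- The coordinate subspace of a set of blocks. -/
def VJ {I : Type*} (v : Module.Basis (I × ℕ) D V) (J : Set I) : Submodule D V :=
  span D (v '' {p | p.1 ∈ J})

lemma VJ_mono {I : Type*} (v : Module.Basis (I × ℕ) D V) {J J' : Set I} (h : J ⊆ J') :
    VJ v J ≤ VJ v J' :=
  Submodule.span_mono (Set.image_mono (fun _ hp => h hp))

lemma VJ_union {I : Type*} (v : Module.Basis (I × ℕ) D V) (J J' : Set I) :
    VJ v (J ∪ J') = VJ v J ⊔ VJ v J' := by
  unfold VJ
  rw [← Submodule.span_union, ← Set.image_union]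
  rfl

lemma VJ_univ {I : Type*} (v : Module.Basis (I × ℕ) D V) : VJ v Set.univ = ⊤ := by
  unfold VJ
  rw [← v.span_eq]
  congr 1
  ext x
  simp

lemma Inv.sup {f : V ≃ₗ[D] V} {W X : Submodule D V} (hW : Inv f W) (hX : Inv f X) :
    Inv f (W ⊔ X) := by
  intro x
  constructor
  · intro h
    obtain ⟨y, hy, z, hz, hyz⟩ := Submodule.mem_sup.mp h
    have : x = f.symm y + f.symm z := by
      rw [← map_add, hyz, LinearEquiv.symm_apply_apply]
    rw [this]
    exact Submodule.add_mem_sup ((hW.symm y).mpr hy) ((hX.symm z).mpr hz)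
  · intro h
    obtain ⟨y, hy, z, hz, rfl⟩ := Submodule.mem_sup.mp h
    rw [map_add]
    exact Submodule.add_mem_sup ((hW y).mpr hy) ((hX z).mpr hz)

/-- A countable closed set of blocks containing a given block. -/
lemma exists_closed {I : Type*} (v : Module.Basis (I × ℕ) D V) (g : V ≃ₗ[D] V) (i : I) :
    ∃ K : Set I, i ∈ K ∧ K.Countable ∧ Inv g (VJ v K) := by
  classical
  let nb : I → Set I := fun k => ⋃ n : ℕ,
    (Prod.fst '' ((v.repr (g (v (k, n)))).support : Set (I × ℕ))) ∪
    (Prod.fst '' ((v.repr (g.symm (v (k, n)))).support : Set (I × ℕ)))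
  have hnb : ∀ k, (nb k).Countable := by
    intro k
    apply Set.countable_iUnion
    intro n
    exact ((Finset.countable_toSet _).image _).union ((Finset.countable_toSet _).image _)
  let Ks : ℕ → Set I := fun n => Nat.rec {i} (fun _ K => ⋃ k ∈ K, nb k) n
  have hKs0 : Ks 0 = {i} := rfl
  have hKss : ∀ n, Ks (n + 1) = ⋃ k ∈ Ks n, nb k := fun n => rfl
  have hcount : ∀ n, (Ks n).Countable := by
    intro n
    induction n with
    | zero => rw [hKs0]; exact Set.countable_singleton i
    | succ n ih =>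
      rw [hKss]
      exact ih.biUnion (fun k _ => hnb k)
  set K : Set I := ⋃ n, Ks n with hK
  have hclosed : ∀ k ∈ K, nb k ⊆ K := by
    intro k hk j hj
    obtain ⟨n, hn⟩ := Set.mem_iUnion.mp hk
    apply Set.mem_iUnion.mpr
    refine ⟨n + 1, ?_⟩
    rw [hKss]
    exact Set.mem_biUnion hn hj
  have hmem : ∀ x : V, (∀ q ∈ (v.repr x).support, q.1 ∈ K) → x ∈ VJ v K := by
    intro x hx
    rw [← v.linearCombination_repr x, Finsupp.linearCombination_apply]
    apply Submodule.sum_mem
    intro q hq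
    apply Submodule.smul_mem
    apply Submodule.subset_span
    exact ⟨q, hx q hq, rfl⟩
  have hg1 : ∀ x ∈ VJ v K, g x ∈ VJ v K := by
    have : VJ v K ≤ (VJ v K).comap (g : V →ₗ[D] V) := by
      unfold VJ
      rw [Submodule.span_le]
      rintro _ ⟨⟨k, n⟩, hk, rfl⟩
      apply hmem
      intro q hq
      apply hclosed k hk
      apply Set.mem_iUnion.mpr
      exact ⟨n, Or.inl ⟨q, hq, rfl⟩⟩
    exact fun x hx => this hx
  have hg2 : ∀ x ∈ VJ v K, g.symm x ∈ VJ v K := by
    have : VJ v K ≤ (VJ v K).comap (g.symm : V →ₗ[D] V) := by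
      unfold VJ
      rw [Submodule.span_le]
      rintro _ ⟨⟨k, n⟩, hk, rfl⟩
      apply hmem
      intro q hq
      apply hclosed k hk
      apply Set.mem_iUnion.mpr
      exact ⟨n, Or.inr ⟨q, hq, rfl⟩⟩
    exact fun x hx => this hx
  refine ⟨K, Set.mem_iUnion.mpr ⟨0, by rw [hKs0]; rfl⟩, Set.countable_iUnion hcount, ?_⟩
  intro x
  constructor
  · intro h
    have := hg2 _ h
    rwa [LinearEquiv.symm_apply_apply] at this
  · exact hg1 x

/-- The main theorem for automorphisms. -/
theorem main (h : ¬ Module.Finite D V) (g : V ≃ₗ[D] V) :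
    ∃ a b : V ≃ₗ[D] V, ∀ x, a (b x) = g (b (a x)) := by
  classical
  obtain ⟨I, ⟨v⟩⟩ := exists_basis (D := D) (V := V) h
  let T := {t : Set I × (V ≃ₗ[D] V) × (V ≃ₗ[D] V) //
    Inv g (VJ v t.1) ∧ Inv t.2.1 (VJ v t.1) ∧ Inv t.2.2 (VJ v t.1) ∧
      ∀ x ∈ VJ v t.1, t.2.1 (t.2.2 x) = g (t.2.2 (t.2.1 x))}
  let r : T → T → Prop := fun t t' => t.1.1 ⊆ t'.1.1 ∧
    (∀ x ∈ VJ v t.1.1, t'.1.2.1 x = t.1.2.1 x) ∧ (∀ x ∈ VJ v t.1.1, t'.1.2.2 x = t.1.2.2 x)
  have hrefl : ∀ t, r t t := fun t => ⟨subset_rfl, fun _ _ => rfl, fun _ _ => rfl⟩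
  have htrans : ∀ {a b c : T}, r a b → r b c → r a c := by
    intro a b c h1 h2
    refine ⟨h1.1.trans h2.1, ?_, ?_⟩
    · intro x hx
      rw [h2.2.1 x (VJ_mono v h1.1 hx), h1.2.1 x hx]
    · intro x hx
      rw [h2.2.2 x (VJ_mono v h1.1 hx), h1.2.2 x hx]
  have hchain : ∀ c : Set T, IsChain r c → ∃ ub, ∀ a ∈ c, r a ub := by
    intro c hc
    rcases c.eq_empty_or_nonempty with rfl | hne
    · have h0 : VJ v (∅ : Set I) = ⊥ := by simp [VJ]
      refine ⟨⟨⟨∅, LinearEquiv.refl D V, LinearEquiv.refl D V⟩, ?_, ?_, ?_, ?_⟩, by simp⟩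
      · intro x; rw [h0]; simp
      · intro x; rw [h0]; simp
      · intro x; rw [h0]; simp
      · intro x hx
        change x ∈ VJ v (∅ : Set I) at hx
        rw [h0, Submodule.mem_bot] at hx
        subst hx
        simp
    · haveI : Nonempty c := hne.to_subtype
      set J : Set I := ⋃ t : c, t.1.1.1 with hJ
      have hdir : ∀ i j : c, ∃ k : c, r i.1 k.1 ∧ r j.1 k.1 := by
        intro i j
        by_cases hij : i.1 = j.1
        · exact ⟨j, hij ▸ hrefl _, hrefl _⟩
        · rcases hc i.2 j.2 hij with h1 | h1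
          · exact ⟨j, h1, hrefl _⟩
          · exact ⟨i, hrefl _, h1⟩
      have hsup : ∀ x ∈ VJ v J, ∃ t : c, x ∈ VJ v t.1.1.1 := by
        intro x hx
        have h1 : VJ v J ≤ ⨆ t : c, VJ v t.1.1.1 := by
          unfold VJ
          rw [Submodule.span_le]
          rintro _ ⟨p, hp, rfl⟩
          obtain ⟨t, ht⟩ := Set.mem_iUnion.mp hp
          exact Submodule.mem_iSup_of_mem t (Submodule.subset_span ⟨p, ht, rfl⟩)
        have h2 : Directed (· ≤ ·) (fun t : c => VJ v t.1.1.1) := by
          intro i j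
          obtain ⟨k, h1, h2⟩ := hdir i j
          exact ⟨k, VJ_mono v h1.1, VJ_mono v h2.1⟩
        have h3 := h1 hx
        rwa [Submodule.mem_iSup_of_directed _ h2] at h3
      have hle : ∀ t : c, VJ v t.1.1.1 ≤ VJ v J := fun t =>
        VJ_mono v (Set.subset_iUnion (fun t : c => t.1.1.1) t)
      obtain ⟨A, hA⟩ := glue (fun t : c => VJ v t.1.1.1)
        (fun t => (t.1.1.2.1 : V →ₗ[D] V)) (by
          intro i j
          obtain ⟨k, h1, h2⟩ := hdir i j
          exact ⟨k, VJ_mono v h1.1, VJ_mono v h2.1, h1.2.1, h2.2.1⟩)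
      obtain ⟨B, hB⟩ := glue (fun t : c => VJ v t.1.1.1)
        (fun t => (t.1.1.2.2 : V →ₗ[D] V)) (by
          intro i j
          obtain ⟨k, h1, h2⟩ := hdir i j
          exact ⟨k, VJ_mono v h1.1, VJ_mono v h2.1, h1.2.2, h2.2.2⟩)
      obtain ⟨a, ha1, ha2⟩ := ext0 (VJ v J) A
        (by
          intro x hx
          obtain ⟨t, ht⟩ := hsup x hx
          rw [hA t x ht]
          exact hle t ((t.1.2.2.1 x).mpr ht))
        (by
          intro x hx hx0
          obtain ⟨t, ht⟩ := hsup x hx
          rw [hA t x ht] at hx0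
          exact (LinearEquiv.map_eq_zero_iff _).mp hx0)
        (by
          intro y hy
          obtain ⟨t, ht⟩ := hsup y hy
          have h1 := ((t.1.2.2.1.symm) y).mpr ht
          refine ⟨_, hle t h1, ?_⟩
          rw [hA t _ h1]
          simp)
      obtain ⟨b, hb1, hb2⟩ := ext0 (VJ v J) B
        (by
          intro x hx
          obtain ⟨t, ht⟩ := hsup x hx
          rw [hB t x ht]
          exact hle t ((t.1.2.2.2.1 x).mpr ht))
        (by
          intro x hx hx0
          obtain ⟨t, ht⟩ := hsup x hx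
          rw [hB t x ht] at hx0
          exact (LinearEquiv.map_eq_zero_iff _).mp hx0)
        (by
          intro y hy
          obtain ⟨t, ht⟩ := hsup y hy
          have h1 := ((t.1.2.2.2.1.symm) y).mpr ht
          refine ⟨_, hle t h1, ?_⟩
          rw [hB t _ h1]
          simp)
      have hat : ∀ (t : c), ∀ x ∈ VJ v t.1.1.1, a x = t.1.1.2.1 x := by
        intro t x hx
        rw [ha2 x (hle t hx), hA t x hx]
        rfl
      have hbt : ∀ (t : c), ∀ x ∈ VJ v t.1.1.1, b x = t.1.1.2.2 x := by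
        intro t x hx
        rw [hb2 x (hle t hx), hB t x hx]
        rfl
      refine ⟨⟨⟨J, a, b⟩, ?_, ha1, hb1, ?_⟩, ?_⟩
      · intro x
        constructor
        · intro hx
          obtain ⟨t, ht⟩ := hsup _ hx
          exact hle t ((t.1.2.1 x).mp ht)
        · intro hx
          obtain ⟨t, ht⟩ := hsup _ hx
          exact hle t ((t.1.2.1 x).mpr ht)
      · intro x hx
        obtain ⟨t, ht⟩ := hsup _ hx
        change a (b x) = g (b (a x))
        have h1 : t.1.1.2.2 x ∈ VJ v t.1.1.1 := (t.1.2.2.2.1 x).mpr ht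
        have h2 : t.1.1.2.1 x ∈ VJ v t.1.1.1 := (t.1.2.2.1 x).mpr ht
        rw [hbt t x ht, hat t x ht, hat t _ h1, hbt t _ h2]
        exact t.1.2.2.2.2 x ht
      · intro t ht
        exact ⟨Set.subset_iUnion (fun t : c => t.1.1.1) ⟨t, ht⟩,
          fun x hx => hat ⟨t, ht⟩ x hx, fun x hx => hbt ⟨t, ht⟩ x hx⟩
  obtain ⟨⟨⟨J, a, b⟩, hg, ha, hb, hrel⟩, hmax⟩ := exists_maximal_of_chains_bounded hchain htrans
  by_cases hJ : J = Set.univ
  · refine ⟨a, b, fun x => hrel x ?_⟩
    change x ∈ VJ v J
    rw [hJ, VJ_univ]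
    trivial
  · exfalso
    obtain ⟨i, hi⟩ : ∃ i, i ∉ J := by
      by_contra hcon
      push Not at hcon
      exact hJ (Set.eq_univ_of_forall hcon)
    obtain ⟨K, hiK, hKc, hKg⟩ := exists_closed v g i
    have hW : Inv g (VJ v J) := hg
    have hX : Inv g (VJ v (J ∪ K)) := by
      rw [VJ_union]
      exact hW.sup hKg
    have hcount : (v '' {p : I × ℕ | p.1 ∈ K}).Countable := by
      apply Set.Countable.image
      have : {p : I × ℕ | p.1 ∈ K} = K ×ˢ (Set.univ : Set ℕ) := by
        ext p
        simp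
      rw [this]
      exact hKc.prod Set.countable_univ
    have hne : (v '' {p : I × ℕ | p.1 ∈ K}).Nonempty := ⟨v (i, 0), (i, 0), hiK, rfl⟩
    obtain ⟨e, he⟩ := hcount.exists_eq_range hne
    have hKX : VJ v K ≤ VJ v (J ∪ K) := VJ_mono v Set.subset_union_right
    obtain ⟨a', b', ha', hb', haW, hbW, hrel'⟩ := rel_ext g (VJ v J) (VJ v (J ∪ K))
      (VJ_mono v Set.subset_union_left) hW hX
      (by
        intro s hs
        -- choose a basis vector in block `i` not appearing in `s`
        obtain ⟨n, hn⟩ : ∃ n : ℕ, ∀ x ∈ s, v.repr x (i, n) = 0 := by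
          let F : Finset ℕ := s.biUnion (fun x => (v.repr x).support.image Prod.snd)
          obtain ⟨n, hn⟩ := Infinite.exists_notMem_finset F
          refine ⟨n, fun x hx => ?_⟩
          by_contra hne0
          apply hn
          apply Finset.mem_biUnion.mpr
          refine ⟨x, hx, Finset.mem_image.mpr ⟨(i, n), ?_, rfl⟩⟩
          exact Finsupp.mem_support_iff.mpr hne0
        have h1 : VJ v J ⊔ span D (s : Set V) ≤ LinearMap.ker (v.coord (i, n)) := by
          apply sup_le
          · unfold VJ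
            rw [Submodule.span_le]
            rintro _ ⟨q, hq, rfl⟩
            rw [SetLike.mem_coe, LinearMap.mem_ker, Module.Basis.coord_apply,
              Module.Basis.repr_self, Finsupp.single_apply, if_neg]
            rintro rfl
            exact hi hq
          · rw [Submodule.span_le]
            intro x hx
            rw [SetLike.mem_coe, LinearMap.mem_ker, Module.Basis.coord_apply]
            exact hn x hx
        have h2 : v (i, n) ∈ LinearMap.ker (v.coord (i, n)) := by
          apply h1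
          apply hs
          apply hKX
          exact Submodule.subset_span ⟨(i, n), hiK, rfl⟩
        rw [LinearMap.mem_ker, Module.Basis.coord_apply, Module.Basis.repr_self,
          Finsupp.single_eq_same] at h2
        exact one_ne_zero h2)
      e
      (by
        intro n
        apply hKX
        apply Submodule.subset_span
        rw [he]
        exact ⟨n, rfl⟩)
      (by
        rw [VJ_union, ← he]
        rfl)
      a b ha hb hrel
    have := hmax ⟨⟨J ∪ K, a', b'⟩, hX, ha', hb', hrel'⟩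
      ⟨Set.subset_union_left, haW, hbW⟩
    exact hi (this.1 (Or.inr hiK))

end Pool.Agent.Lib.MP_3fc405_al
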